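import Mathlib

set_option autoImplicit false

open MeasureTheory ProbabilityTheory Filter Topology Metric
open scoped Pointwise BoundedContinuousFunction

namespace Pool.Agent.Results.MP_b91784_pr.SmallExpectation

/-! ## Definitions of the problem file -/

/-- B-convexity of a real normed space: there are `n ≥ 2` and `η > 0` such that any `n` vectors of
the closed unit ball have a signed sum of norm at most `n (1 - η)`. -/
def BConvex (X : Type*) [NormedAddCommGroup X] [NormedSpace ℝ X] : Prop :=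
  ∃ n : ℕ, 2 ≤ n ∧ ∃ η : ℝ, 0 < η ∧ ∀ x : Fin n → X, (∀ i, ‖x i‖ ≤ 1) →
    ∃ s : Fin n → ℝ, (∀ i, s i = 1 ∨ s i = -1) ∧ ‖∑ i, s i • x i‖ ≤ n * (1 - η)

/-- Non-empty bounded convex subsets of a real normed space. -/
structure BC (X : Type*) [NormedAddCommGroup X] [NormedSpace ℝ X] where
  /-- the underlying set -/
  carrier : Set X
  nonempty : carrier.Nonempty
  bounded : Bornology.IsBounded carrier
  convex : Convex ℝ carrier

/-- The norm of a set of vectors: the supremum of the norms of its elements. -/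
noncomputable def setNorm {X : Type*} [NormedAddCommGroup X] (A : Set X) : ℝ :=
  sSup ((fun a => ‖a‖) '' A)

section Support

variable {X : Type*} [NormedAddCommGroup X] [NormedSpace ℝ X]

/-- The support function of a set. -/
noncomputable def supp (A : Set X) (f : StrongDual ℝ X) : ℝ := sSup ((fun a => f a) '' A)

lemma BC.exists_bound (A : BC X) : ∃ C : ℝ, 0 ≤ C ∧ ∀ a ∈ A.carrier, ‖a‖ ≤ C := by
  obtain ⟨C, hC⟩ := A.bounded.exists_norm_le
  exact ⟨max C 0, le_max_right _ _, fun a ha => (hC a ha).trans (le_max_left _ _)⟩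

lemma bddAbove_of_bound {A : Set X} {C : ℝ} (hC : ∀ a ∈ A, ‖a‖ ≤ C) (f : StrongDual ℝ X) :
    BddAbove ((fun a => f a) '' A) := by
  refine ⟨‖f‖ * C, ?_⟩
  rintro _ ⟨a, ha, rfl⟩
  calc f a ≤ ‖f a‖ := le_abs_self _
    _ ≤ ‖f‖ * ‖a‖ := f.le_opNorm a
    _ ≤ ‖f‖ * C := by gcongr; exact hC a ha

lemma supp_le_add {A : Set X} (hA : A.Nonempty) {C : ℝ} (hC : ∀ a ∈ A, ‖a‖ ≤ C)
    (f g : StrongDual ℝ X) : supp A f ≤ supp A g + C * ‖f - g‖ := by
  refine csSup_le (hA.image _) ?_
  rintro _ ⟨a, ha, rfl⟩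
  have h1 : g a ≤ supp A g := le_csSup (bddAbove_of_bound hC g) ⟨a, ha, rfl⟩
  have h2 : (f - g) a ≤ ‖f - g‖ * C := by
    calc (f - g) a ≤ ‖(f - g) a‖ := le_abs_self _
      _ ≤ ‖f - g‖ * ‖a‖ := (f - g).le_opNorm a
      _ ≤ ‖f - g‖ * C := by gcongr; exact hC a ha
  have h3 : (f - g) a = f a - g a := rfl
  simp only
  linarith [mul_comm C ‖f - g‖]

lemma abs_supp_sub_le {A : Set X} (hA : A.Nonempty) {C : ℝ} (hC : ∀ a ∈ A, ‖a‖ ≤ C)
    (f g : StrongDual ℝ X) : |supp A f - supp A g| ≤ C * ‖f - g‖ := by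
  rw [abs_sub_le_iff]
  have h1 := supp_le_add hA hC f g
  have h2 := supp_le_add hA hC g f
  rw [norm_sub_rev g f] at h2
  constructor <;> linarith

lemma continuous_supp (A : BC X) : Continuous (supp A.carrier) := by
  obtain ⟨C, hC0, hC⟩ := A.exists_bound
  refine (LipschitzWith.of_dist_le_mul (K := ⟨C, hC0⟩) ?_).continuous
  intro f g
  rw [Real.dist_eq, dist_eq_norm]
  exact abs_supp_sub_le A.nonempty hC f g

lemma supp_zero {A : Set X} (hA : A.Nonempty) : supp A (0 : StrongDual ℝ X) = 0 := by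
  have : ((fun a => (0 : StrongDual ℝ X) a) '' A) = {0} := by
    ext y
    constructor
    · rintro ⟨a, _, rfl⟩
      simp
    · intro hy
      obtain ⟨a, ha⟩ := hA
      exact ⟨a, ha, by simpa using hy.symm⟩
  rw [supp, this, csSup_singleton]

lemma exists_supp_bound (A : BC X) :
    ∃ C : ℝ, ∀ f : sphere (0 : StrongDual ℝ X) 1, ‖supp A.carrier f.1‖ ≤ C := by
  obtain ⟨C, hC0, hC⟩ := A.exists_bound
  refine ⟨C, fun f => ?_⟩
  have h := abs_supp_sub_le A.nonempty hC f.1 0
  rw [supp_zero A.nonempty, sub_zero, sub_zero, norm_eq_of_mem_sphere, mul_one] at h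
  exact h

/-- The Radstrom embedding: `R(A)` is the support function of `A` as a bounded continuous function
on the unit sphere of the dual, `R(A)(f) = sup_{a ∈ A} f a`. -/
noncomputable def R (A : BC X) : sphere (0 : StrongDual ℝ X) 1 →ᵇ ℝ :=
  BoundedContinuousFunction.ofNormedAddCommGroup
    (fun f : sphere (0 : StrongDual ℝ X) 1 => supp A.carrier f.1)
    ((continuous_supp A).comp continuous_subtype_val)
    (exists_supp_bound A).choose (exists_supp_bound A).choose_spec

lemma R_apply (A : BC X) (f : sphere (0 : StrongDual ℝ X) 1) : R A f = supp A.carrier f.1 := rfl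

/-- The Minkowski average `(1/n) (Ψ_0(ω) + ... + Ψ_{n-1}(ω))` of the first `n` members of a sequence
of random sets. -/
noncomputable def average {Ω : Type*} (Ψ : ℕ → Ω → BC X) (n : ℕ) (ω : Ω) : Set X :=
  (n : ℝ)⁻¹ • ∑ i ∈ Finset.range n, (Ψ i ω).carrier

/-- `Ψ_0, Ψ_1, ...` are independent random sets in `X`, all contained in the unit ball and all with
the same expectation `U`. -/
structure IsAdmissible {Ω : Type*} [MeasurableSpace Ω] (P : Measure Ω) (U : BC X)
    (Ψ : ℕ → Ω → BC X) : Prop where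
  /-- each `Ψ_n` is a random set: `R ∘ Ψ_n` is strongly measurable -/
  stronglyMeasurable : ∀ n, StronglyMeasurable fun ω => R (Ψ n ω)
  /-- the random vectors `R ∘ Ψ_n` are independent -/
  indep : iIndepFun (m := fun _ => borel (sphere (0 : StrongDual ℝ X) 1 →ᵇ ℝ))
    (fun n ω => R (Ψ n ω)) P
  /-- all values lie in the closed unit ball -/
  subset_ball : ∀ n ω, (Ψ n ω).carrier ⊆ closedBall 0 1
  /-- the expectation of `Ψ_n` is `U` -/
  expectation : ∀ n, R U = ∫ ω, R (Ψ n ω) ∂P

end Support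

/-- The statement whose truth for every B-convex Banach space is asked in Q1. -/
def SmallExpectationLaw (X : Type) [NormedAddCommGroup X] [NormedSpace ℝ X] : Prop :=
  ∀ ε : ℝ, 0 < ε → ∃ δ : ℝ, 0 < δ ∧
    ∀ (Ω : Type) [MeasurableSpace Ω] (P : Measure Ω) [IsProbabilityMeasure P]
      (U : BC X) (Ψ : ℕ → Ω → BC X),
      U.carrier ⊆ closedBall 0 δ → IsAdmissible P U Ψ →
      ∀ᵐ ω ∂P, limsup (fun n : ℕ => setNorm (average Ψ n ω)) atTop ≤ ε

/-! ## Infinite Minkowski sums -/

section MinkSum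

variable {X : Type*} [NormedAddCommGroup X] [NormedSpace ℝ X] [CompleteSpace X]
variable {ι : Type*}

/-- The (unconditionally convergent) Minkowski sum of a family of sets. -/
def sumSet (K : ι → Set X) : Set X := {x | ∃ v : ι → X, (∀ k, v k ∈ K k) ∧ HasSum v x}

omit [NormedSpace ℝ X] [CompleteSpace X] in
lemma norm_le_of_mem_sumSet {K : ι → Set X} {b : ι → ℝ} (hb : Summable b)
    (hK : ∀ k, ∀ x ∈ K k, ‖x‖ ≤ b k) {x : X} (hx : x ∈ sumSet K) : ‖x‖ ≤ ∑' k, b k := by
  obtain ⟨v, hv, hs⟩ := hx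
  rw [← hs.tsum_eq]
  exact tsum_of_norm_bounded hb.hasSum fun k => hK k _ (hv k)

/-- The Minkowski sum of a summably bounded family of elements of `BC X`. -/
def minkSum (K : ι → BC X) (b : ι → ℝ) (hb : Summable b)
    (hK : ∀ k, ∀ x ∈ (K k).carrier, ‖x‖ ≤ b k) : BC X where
  carrier := sumSet fun k => (K k).carrier
  nonempty := by
    choose v hv using fun k => (K k).nonempty
    have hs : Summable v := Summable.of_norm_bounded hb fun k => hK k _ (hv k)
    exact ⟨_, v, hv, hs.hasSum⟩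
  bounded := by
    refine (isBounded_iff_forall_norm_le).2 ⟨∑' k, b k, fun x hx => ?_⟩
    exact norm_le_of_mem_sumSet hb hK hx
  convex := by
    rintro x ⟨v, hv, hvs⟩ y ⟨w, hw, hws⟩ a c ha hc hac
    refine ⟨fun k => a • v k + c • w k, fun k => ?_, ?_⟩
    · exact (K k).convex (hv k) (hw k) ha hc hac
    · exact (hvs.const_smul a).add (hws.const_smul c)

lemma hasSum_supp_minkSum (K : ι → BC X) (b : ι → ℝ) (hb : Summable b)
    (hK : ∀ k, ∀ x ∈ (K k).carrier, ‖x‖ ≤ b k) (f : StrongDual ℝ X) :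
    HasSum (fun k => supp (K k).carrier f) (supp (minkSum K b hb hK).carrier f) := by
  have hbound : ∀ k, ‖supp (K k).carrier f‖ ≤ b k * ‖f‖ := by
    intro k
    have h := abs_supp_sub_le (K k).nonempty (hK k) f 0
    rwa [supp_zero (K k).nonempty, sub_zero, sub_zero] at h
  have hsum : Summable fun k => supp (K k).carrier f :=
    Summable.of_norm_bounded (hb.mul_right ‖f‖) hbound
  have hbdd := bddAbove_of_bound (A := (minkSum K b hb hK).carrier)
    (fun x hx => norm_le_of_mem_sumSet hb hK hx) f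
  have hle : supp (minkSum K b hb hK).carrier f ≤ ∑' k, supp (K k).carrier f := by
    refine csSup_le ((minkSum K b hb hK).nonempty.image _) ?_
    rintro _ ⟨x, ⟨v, hv, hs⟩, rfl⟩
    have h1 : HasSum (fun k => f (v k)) (f x) := f.hasSum hs
    have h2 : ∀ k, f (v k) ≤ supp (K k).carrier f := fun k =>
      le_csSup (bddAbove_of_bound (hK k) f) ⟨v k, hv k, rfl⟩
    exact hasSum_le h2 h1 hsum.hasSum
  have hge : ∑' k, supp (K k).carrier f ≤ supp (minkSum K b hb hK).carrier f := by
    -- every finite partial sum, corrected by the tail, is approximated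
    classical
    choose v0 hv0 using fun k => (K k).nonempty
    have hv0s : Summable v0 := Summable.of_norm_bounded hb fun k => hK k _ (hv0 k)
    have hfv0 : HasSum (fun k => f (v0 k)) (f (∑' k, v0 k)) := f.hasSum hv0s.hasSum
    -- it suffices to bound the sum of the (nonnegative) differences
    have hnn : ∀ k, 0 ≤ supp (K k).carrier f - f (v0 k) := fun k =>
      sub_nonneg.2 (le_csSup (bddAbove_of_bound (hK k) f) ⟨v0 k, hv0 k, rfl⟩)
    have hd : HasSum (fun k => supp (K k).carrier f - f (v0 k))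
        (∑' k, supp (K k).carrier f - f (∑' k, v0 k)) := hsum.hasSum.sub hfv0
    have key : ∑' k, supp (K k).carrier f - f (∑' k, v0 k) ≤
        supp (minkSum K b hb hK).carrier f - f (∑' k, v0 k) := by
      refine hasSum_le_of_sum_le hd fun s => ?_
      -- for finitely many coordinates we may choose almost maximisers
      refine le_of_forall_pos_le_add fun ε hε => ?_
      have hex : ∀ k, ∃ w ∈ (K k).carrier,
          supp (K k).carrier f - ε / (s.card + 1) < f w := by
        intro k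
        have hpos : 0 < ε / ((s.card : ℝ) + 1) := by positivity
        obtain ⟨_, ⟨w, hw, rfl⟩, hlt⟩ := exists_lt_of_lt_csSup
          ((K k).nonempty.image (fun a => f a))
          (show supp (K k).carrier f - ε / ((s.card : ℝ) + 1) < sSup ((fun a => f a) '' (K k).carrier)
            by change _ < supp (K k).carrier f; linarith)
        exact ⟨w, hw, hlt⟩
      choose w hw hwlt using hex
      let u : ι → X := fun k => if k ∈ s then w k else v0 k
      have hu : ∀ k, u k ∈ (K k).carrier := by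
        intro k
        by_cases hk : k ∈ s
        · simp only [u, hk, if_true]; exact hw k
        · simp only [u, hk, if_false]; exact hv0 k
      have hus : Summable u := Summable.of_norm_bounded hb fun k => hK k _ (hu k)
      have hmem : (∑' k, u k) ∈ (minkSum K b hb hK).carrier := ⟨u, hu, hus.hasSum⟩
      have hle' : f (∑' k, u k) ≤ supp (minkSum K b hb hK).carrier f :=
        le_csSup hbdd ⟨_, hmem, rfl⟩
      have hdiff : HasSum (fun k => f (u k) - f (v0 k)) (f (∑' k, u k) - f (∑' k, v0 k)) :=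
        (f.hasSum hus.hasSum).sub hfv0
      have hfin : HasSum (fun k => f (u k) - f (v0 k)) (∑ k ∈ s, (f (u k) - f (v0 k))) := by
        refine hasSum_sum_of_ne_finset_zero fun k hk => ?_
        simp [u, hk]
      have heq : f (∑' k, u k) - f (∑' k, v0 k) = ∑ k ∈ s, (f (w k) - f (v0 k)) := by
        rw [hdiff.unique hfin]
        refine Finset.sum_congr rfl fun k hk => ?_
        simp [u, hk]
      have hsumle : ∑ k ∈ s, (supp (K k).carrier f - f (v0 k)) ≤
          ∑ k ∈ s, ((f (w k) - f (v0 k)) + ε / (s.card + 1)) := by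
        refine Finset.sum_le_sum fun k _ => ?_
        have := hwlt k
        linarith
      rw [Finset.sum_add_distrib, ← heq, Finset.sum_const, nsmul_eq_mul] at hsumle
      have hcard : (s.card : ℝ) * (ε / (s.card + 1)) ≤ ε := by
        have h1 : (0 : ℝ) < (s.card : ℝ) + 1 := by positivity
        rw [mul_div_assoc', div_le_iff₀ h1]
        nlinarith
      linarith
    linarith
  rw [le_antisymm hle hge]
  exact hsum.hasSum

end MinkSum

/-! ## The Hilbert space and the sets of the counterexample -/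

/-- The Hilbert space `ℓ²` indexed by all finite sequences of natural numbers. -/
abbrev H : Type := lp (fun _ : List ℕ => ℝ) 2

lemma bConvex_H : BConvex H := by
  refine ⟨2, le_rfl, 1 / 4, by norm_num, fun x hx => ?_⟩
  have h0 := hx 0
  have h1 := hx 1
  have hpar := parallelogram_law_with_norm ℝ (x 0) (x 1)
  have h0' : ‖x 0‖ * ‖x 0‖ ≤ 1 := by nlinarith [norm_nonneg (x 0)]
  have h1' : ‖x 1‖ * ‖x 1‖ ≤ 1 := by nlinarith [norm_nonneg (x 1)]
  have hnum : ((2 : ℕ) : ℝ) * (1 - 1 / 4) = 3 / 2 := by norm_num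
  rw [hnum]
  by_cases h : ‖x 0 + x 1‖ ≤ 3 / 2
  · refine ⟨fun _ => 1, fun _ => Or.inl rfl, ?_⟩
    simpa [Fin.sum_univ_two] using h
  · refine ⟨![1, -1], fun i => by fin_cases i <;> simp, ?_⟩
    have h2 : ‖x 0 - x 1‖ ≤ 3 / 2 := by
      push Not at h
      by_contra h3
      push Not at h3
      nlinarith
    simpa [Fin.sum_univ_two, sub_eq_add_neg] using h2

/-- The ball of radius `r` of the subspace of vectors supported in `A`. -/
def V (A : Set (List ℕ)) (r : ℝ) (hr : 0 ≤ r) : BC H where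
  carrier := {x | (∀ j, j ∉ A → x j = 0) ∧ ‖x‖ ≤ r}
  nonempty := ⟨0, fun _ _ => rfl, by simpa using hr⟩
  bounded := (isBounded_iff_forall_norm_le).2 ⟨r, fun _ hx => hx.2⟩
  convex := by
    rintro x ⟨hx, hxr⟩ y ⟨hy, hyr⟩ a c ha hc hac
    refine ⟨fun j hj => ?_, ?_⟩
    · change a * x j + c * y j = 0
      rw [hx j hj, hy j hj]; simp
    · calc ‖a • x + c • y‖ ≤ ‖a • x‖ + ‖c • y‖ := norm_add_le _ _
        _ = a * ‖x‖ + c * ‖y‖ := by
          rw [norm_smul, norm_smul, Real.norm_of_nonneg ha, Real.norm_of_nonneg hc]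
        _ ≤ a * r + c * r := by gcongr
        _ = r := by rw [← add_mul, hac, one_mul]

lemma supp_V_smul (A : Set (List ℕ)) (r t : ℝ) (hr : 0 ≤ r) (ht : 0 < t) (f : StrongDual ℝ H) :
    supp (V A (t * r) (by positivity)).carrier f = t * supp (V A r hr).carrier f := by
  have : ((fun a => f a) '' (V A (t * r) (by positivity)).carrier) =
      t • ((fun a => f a) '' (V A r hr).carrier) := by
    ext y
    rw [Set.mem_smul_set]
    constructor
    · rintro ⟨x, ⟨hx1, hx2⟩, rfl⟩
      refine ⟨f (t⁻¹ • x), ⟨t⁻¹ • x, ⟨fun j hj => ?_, ?_⟩, rfl⟩, ?_⟩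
      · change t⁻¹ * x j = 0
        rw [hx1 j hj, mul_zero]
      · rw [norm_smul, Real.norm_of_nonneg (by positivity), inv_mul_le_iff₀ ht]
        exact hx2
      · rw [map_smul, smul_smul, mul_inv_cancel₀ ht.ne', one_smul]
    · rintro ⟨_, ⟨x, ⟨hx1, hx2⟩, rfl⟩, rfl⟩
      refine ⟨t • x, ⟨fun j hj => ?_, ?_⟩, ?_⟩
      · change t * x j = 0
        rw [hx1 j hj, mul_zero]
      · rw [norm_smul, Real.norm_of_nonneg ht.le]
        gcongr
      · change f (t • x) = t • f x
        rw [map_smul]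
  rw [supp, supp, this, Real.sSup_smul_of_nonneg ht.le, smul_eq_mul]

/-- Sequences whose entry at position `i` is `c`. -/
def cyl (i c : ℕ) : Set (List ℕ) := {l | l[i]? = some c}

lemma cyl_disjoint {i c c' : ℕ} (h : c ≠ c') {l : List ℕ} (hl : l ∈ cyl i c) : l ∉ cyl i c' := by
  intro hl'
  change l[i]? = some c at hl
  change l[i]? = some c' at hl'
  rw [hl] at hl'
  exact h (Option.some_injective _ hl')

lemma inner_eq_zero_of_disjoint {A B : Set (List ℕ)} (hAB : ∀ l ∈ A, l ∉ B) {x y : H}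
    (hx : ∀ j, j ∉ A → x j = 0) (hy : ∀ j, j ∉ B → y j = 0) : inner ℝ x y = 0 := by
  rw [lp.inner_eq_tsum]
  have : (fun i => inner ℝ (x i) (y i)) = fun _ => (0 : ℝ) := by
    funext j
    by_cases hj : j ∈ A
    · rw [hy j (hAB j hj), inner_zero_right]
    · rw [hx j hj, inner_zero_left]
  rw [this, tsum_zero]

lemma norm_sum_sq_of_orthogonal {n : ℕ} (v : Fin n → H)
    (h : ∀ c c', c ≠ c' → inner ℝ (v c) (v c') = 0) :
    ‖∑ c, v c‖ ^ 2 = ∑ c, ‖v c‖ ^ 2 := by
  rw [← real_inner_self_eq_norm_sq, sum_inner]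
  refine Finset.sum_congr rfl fun c _ => ?_
  rw [inner_sum, Finset.sum_eq_single c, real_inner_self_eq_norm_sq]
  · intro c' _ hc'
    exact h c c' (Ne.symm hc')
  · intro hc
    exact absurd (Finset.mem_univ c) hc

section Construction

variable (K : ℕ → ℕ)

/-- `W_i(c)`: the ball of radius `1/2` of the coordinates whose entry `i` is `c`. -/
noncomputable def W (i : ℕ) (c : ℕ) : BC H := V (cyl i c) (1 / 2) (by norm_num)

/-- `U_i`: the average of the sets `W_i(c)` over `c < K i`. -/
noncomputable def Uk (i : ℕ) : BC H :=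
  minkSum (fun c : Fin (K i) => V (cyl i c) ((K i : ℝ)⁻¹ * (1 / 2)) (by positivity))
    (fun _ => (K i : ℝ)⁻¹ * (1 / 2)) (Summable.of_finite) (fun _ _ hx => hx.2)

lemma supp_Uk (hK : ∀ i, 0 < K i) (i : ℕ) (f : StrongDual ℝ H) :
    supp (Uk K i).carrier f = (K i : ℝ)⁻¹ * ∑ c : Fin (K i), supp (W i c).carrier f := by
  have h := hasSum_supp_minkSum
    (fun c : Fin (K i) => V (cyl i c) ((K i : ℝ)⁻¹ * (1 / 2)) (by positivity))
    (fun _ => (K i : ℝ)⁻¹ * (1 / 2)) (Summable.of_finite) (fun _ _ hx => hx.2) f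
  have h2 := h.unique (hasSum_fintype _)
  have hKpos : (0 : ℝ) < (K i : ℝ)⁻¹ := by
    have := hK i
    positivity
  rw [Uk, h2, Finset.mul_sum]
  refine Finset.sum_congr rfl fun c _ => ?_
  exact supp_V_smul (cyl i c) (1 / 2) (K i : ℝ)⁻¹ (by norm_num) hKpos f

lemma zero_mem_Uk (i : ℕ) : (0 : H) ∈ (Uk K i).carrier := by
  refine ⟨fun _ => 0, fun c => ⟨fun _ _ => rfl, ?_⟩, hasSum_zero⟩
  rw [norm_zero]
  positivity

lemma norm_le_of_mem_Uk (hK : ∀ i, 0 < K i) (i : ℕ) {x : H} (hx : x ∈ (Uk K i).carrier) :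
    ‖x‖ ≤ 1 / (2 * √(K i)) := by
  obtain ⟨v, hv, hs⟩ := hx
  have hx : x = ∑ c, v c := hs.unique (hasSum_fintype _)
  have hKpos : (0 : ℝ) < K i := by exact_mod_cast hK i
  have horth := norm_sum_sq_of_orthogonal v (fun c c' hcc' =>
    inner_eq_zero_of_disjoint (A := cyl i c) (B := cyl i c')
      (fun l hl => cyl_disjoint (fun h => hcc' (Fin.ext h)) hl) (hv c).1 (hv c').1)
  have hsq : ‖x‖ ^ 2 ≤ (1 / (2 * √(K i))) ^ 2 := by
    rw [hx, horth]
    calc ∑ c, ‖v c‖ ^ 2 ≤ ∑ _c : Fin (K i), ((K i : ℝ)⁻¹ * (1 / 2)) ^ 2 := by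
          refine Finset.sum_le_sum fun c _ => ?_
          exact pow_le_pow_left₀ (norm_nonneg _) (hv c).2 2
      _ = (1 / (2 * √(K i))) ^ 2 := by
          rw [Finset.sum_const, Finset.card_univ, Fintype.card_fin, nsmul_eq_mul, div_pow,
            mul_pow 2 (√(K i : ℝ)), Real.sq_sqrt hKpos.le]
          field_simp
  exact (pow_le_pow_iff_left₀ (norm_nonneg _) (by positivity) two_ne_zero).1 hsq

/-- the common expectation `U = ∑ U_i` -/
noncomputable def U (b : ℕ → ℝ) (hb : Summable b)
    (hKb : ∀ i, ∀ x ∈ (Uk K i).carrier, ‖x‖ ≤ b i) : BC H :=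
  minkSum (Uk K) b hb hKb

/-- The random sets: `Ψ_i(c) = W_i(c_i) + ∑_{i' ≠ i} U_{i'}`. -/
noncomputable def Psi (b : ℕ → ℝ) (hb : Summable b)
    (hKb : ∀ i, ∀ x ∈ (Uk K i).carrier, ‖x‖ ≤ b i) (i : ℕ) (ω : ∀ i, Fin (K i)) : BC H :=
  minkSum (Function.update (Uk K) i (W i (ω i))) (Function.update b i (1 / 2))
    ((hb.hasSum.update i (1 / 2)).summable) (by
      intro k x hx
      by_cases hk : k = i
      · subst hk
        rw [Function.update_self] at hx ⊢
        exact hx.2
      · rw [Function.update_of_ne hk] at hx ⊢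
        exact hKb k x hx)

variable {K}

lemma R_Psi (b : ℕ → ℝ) (hb : Summable b)
    (hKb : ∀ i, ∀ x ∈ (Uk K i).carrier, ‖x‖ ≤ b i) (i : ℕ) (ω : ∀ i, Fin (K i)) :
    R (Psi K b hb hKb i ω) = R (W i (ω i)) - R (Uk K i) + R (U K b hb hKb) := by
  ext f
  have h1 := hasSum_supp_minkSum (Uk K) b hb hKb f.1
  have h2 := hasSum_supp_minkSum (Function.update (Uk K) i (W i (ω i)))
    (Function.update b i (1 / 2)) ((hb.hasSum.update i (1 / 2)).summable) (by
      intro k x hx
      by_cases hk : k = i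
      · subst hk
        rw [Function.update_self] at hx ⊢
        exact hx.2
      · rw [Function.update_of_ne hk] at hx ⊢
        exact hKb k x hx) f.1
  have h3 := h1.update i (supp (W i (ω i)).carrier f.1)
  have h4 : (fun k => supp (Function.update (Uk K) i (W i (ω i)) k).carrier f.1) =
      Function.update (fun k => supp (Uk K k).carrier f.1) i (supp (W i (ω i)).carrier f.1) := by
    funext k
    by_cases hk : k = i
    · subst hk
      simp only [Function.update_self]
    · simp only [Function.update_of_ne hk]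
  rw [h4] at h2
  have h5 := h2.unique h3
  simp only [BoundedContinuousFunction.coe_add, BoundedContinuousFunction.coe_sub, Pi.add_apply,
    Pi.sub_apply, R_apply]
  exact h5

/-- the product of the uniform measures -/
noncomputable def prodUnif (K : ℕ → ℕ) (hK : ∀ i, 0 < K i) : Measure (∀ i, Fin (K i)) :=
  haveI : ∀ i, Nonempty (Fin (K i)) := fun i => ⟨⟨0, hK i⟩⟩
  Measure.infinitePi fun i => (PMF.uniformOfFintype (Fin (K i))).toMeasure

instance (hK : ∀ i, 0 < K i) : IsProbabilityMeasure (prodUnif K hK) := by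
  unfold prodUnif
  infer_instance

lemma integral_R_W (hK : ∀ i, 0 < K i) (i : ℕ) :
    ∫ ω, R (W i (ω i)) ∂(prodUnif K hK) = R (Uk K i) := by
  have : ∀ i, Nonempty (Fin (K i)) := fun i => ⟨⟨0, hK i⟩⟩
  have hmp := measurePreserving_eval_infinitePi
    (fun i => (PMF.uniformOfFintype (Fin (K i))).toMeasure) i
  have h1 : ∫ ω, R (W i (ω i)) ∂(prodUnif K hK) =
      ∫ c : Fin (K i), R (W i c) ∂((PMF.uniformOfFintype (Fin (K i))).toMeasure) := by
    rw [← hmp.map_eq, integral_map hmp.measurable.aemeasurable]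
    · rfl
    · exact StronglyMeasurable.of_discrete.aestronglyMeasurable
  rw [h1, PMF.integral_eq_sum]
  ext f
  rw [R_apply, supp_Uk K hK, Finset.mul_sum]
  rw [BoundedContinuousFunction.coe_sum, Finset.sum_apply]
  refine Finset.sum_congr rfl fun c _ => ?_
  rw [BoundedContinuousFunction.coe_smul]
  change _ • (R (W i c)) f = _
  rw [R_apply]
  simp [PMF.uniformOfFintype_apply]

end Construction

theorem exists_counterexample (δ : ℝ) (hδ : 0 < δ) :
    ∃ (Ω : Type) (_ : MeasurableSpace Ω) (P : Measure Ω) (_ : IsProbabilityMeasure P)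
      (U : BC H) (Ψ : ℕ → Ω → BC H),
      U.carrier ⊆ closedBall 0 δ ∧ IsAdmissible P U Ψ ∧
      ∀ ω, ∀ n : ℕ, 1 ≤ n → ∃ x ∈ average Ψ n ω, ‖x‖ = 1 / 2 := by
  set δ' : ℝ := min δ (1 / 2) with hδ'
  have hδ'pos : 0 < δ' := lt_min hδ (by norm_num)
  set b : ℕ → ℝ := fun k => δ' / 2 / 2 ^ k with hbdef
  have hbs : HasSum b δ' := hasSum_geometric_two' δ'
  have hb : Summable b := hbs.summable
  have hbpos : ∀ k, 0 < b k := fun k => by positivity
  have hexK : ∀ i, ∃ k : ℕ, 0 < k ∧ 1 / (2 * √(k : ℝ)) ≤ b i := by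
    intro i
    obtain ⟨k, hk⟩ := exists_nat_ge ((1 / (2 * b i)) ^ 2)
    have hpos : 0 < 1 / (2 * b i) := by have := hbpos i; positivity
    have hkpos : (0 : ℝ) < k := lt_of_lt_of_le (by positivity) hk
    refine ⟨k, by exact_mod_cast hkpos, ?_⟩
    have hsq : 1 / (2 * b i) ≤ √(k : ℝ) := Real.le_sqrt_of_sq_le hk
    have hspos : 0 < √(k : ℝ) := Real.sqrt_pos.2 hkpos
    have hbi := hbpos i
    rw [div_le_iff₀ (by positivity)] at hsq ⊢
    linarith
  choose K hK hKle using hexK
  have hKb : ∀ i, ∀ x ∈ (Uk K i).carrier, ‖x‖ ≤ b i := fun i x hx =>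
    (norm_le_of_mem_Uk K hK i hx).trans (hKle i)
  refine ⟨∀ i, Fin (K i), inferInstance, prodUnif K hK, inferInstance, U K b hb hKb,
    Psi K b hb hKb, ?_, ⟨?_, ?_, ?_, ?_⟩, ?_⟩
  · intro x hx
    have h := norm_le_of_mem_sumSet hb hKb hx
    rw [hbs.tsum_eq] at h
    rw [mem_closedBall_zero_iff]
    exact h.trans (min_le_left _ _)
  · intro i
    have h1 : (fun ω => R (Psi K b hb hKb i ω)) =
        (fun c : Fin (K i) => R (W i c) - R (Uk K i) + R (U K b hb hKb)) ∘
          (fun ω : ∀ i, Fin (K i) => ω i) := by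
      funext ω
      exact R_Psi b hb hKb i ω
    rw [h1]
    exact StronglyMeasurable.of_discrete.comp_measurable (measurable_pi_apply i)
  · have h1 : (fun i ω => R (Psi K b hb hKb i ω)) =
        fun i (ω : ∀ i, Fin (K i)) =>
          (fun c : Fin (K i) => R (W i c) - R (Uk K i) + R (U K b hb hKb)) (ω i) := by
      funext i ω
      exact R_Psi b hb hKb i ω
    rw [h1]
    have : ∀ i, Nonempty (Fin (K i)) := fun i => ⟨⟨0, hK i⟩⟩
    exact iIndepFun_infinitePi (m𝓧 := fun _ => borel _)
      (P := fun i => (PMF.uniformOfFintype (Fin (K i))).toMeasure)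
      (X := fun i (c : Fin (K i)) => R (W i c) - R (Uk K i) + R (U K b hb hKb))
      (fun i => by
        intro s _
        exact MeasurableSet.of_discrete)
  · intro i ω x hx
    have h := norm_le_of_mem_sumSet ((hb.hasSum.update i (1 / 2)).summable) (by
      intro k x hx
      by_cases hk : k = i
      · subst hk
        rw [Function.update_self] at hx ⊢
        exact hx.2
      · rw [Function.update_of_ne hk] at hx ⊢
        exact hKb k x hx) hx
    rw [(hb.hasSum.update i (1 / 2)).tsum_eq, hbs.tsum_eq] at h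
    rw [mem_closedBall_zero_iff]
    have h1 : δ' ≤ 1 / 2 := min_le_right _ _
    have h2 := hbpos i
    linarith
  · intro i
    have h1 : (fun ω => R (Psi K b hb hKb i ω)) =
        fun ω => R (W i (ω i)) - R (Uk K i) + R (U K b hb hKb) := by
      funext ω
      exact R_Psi b hb hKb i ω
    have hint : Integrable (fun ω : ∀ i, Fin (K i) => R (W i (ω i))) (prodUnif K hK) := by
      obtain ⟨C, hC⟩ := (Set.finite_range (fun c : Fin (K i) => ‖R (W i c)‖)).bddAbove
      refine Integrable.of_bound (C := C) ?_ ?_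
      · exact (StronglyMeasurable.of_discrete.comp_measurable
          (measurable_pi_apply i)
          : StronglyMeasurable ((fun c : Fin (K i) => R (W i c)) ∘ fun ω : ∀ i, Fin (K i) => ω i)
          ).aestronglyMeasurable
      · exact Eventually.of_forall fun ω => hC ⟨ω i, rfl⟩
    have h2 : ∫ ω, (R (W i (ω i)) - R (Uk K i) + R (U K b hb hKb)) ∂(prodUnif K hK) =
        ∫ ω, (R (W i (ω i)) - R (Uk K i)) ∂(prodUnif K hK) +
          ∫ _ω, R (U K b hb hKb) ∂(prodUnif K hK) :=
      integral_add (hint.sub (integrable_const _)) (integrable_const _)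
    have h3 : ∫ ω, (R (W i (ω i)) - R (Uk K i)) ∂(prodUnif K hK) =
        ∫ ω, R (W i (ω i)) ∂(prodUnif K hK) - ∫ _ω, R (Uk K i) ∂(prodUnif K hK) :=
      integral_sub hint (integrable_const _)
    rw [h1, h2, h3, integral_R_W hK i]
    simp
  · intro ω n hn
    have hn0 : (n : ℝ) ≠ 0 := by positivity
    set l : List ℕ := List.ofFn fun i : Fin n => ((ω i : Fin (K i)) : ℕ) with hl
    set e : H := lp.single 2 l (1 / 2 : ℝ) with he
    have henorm : ‖e‖ = 1 / 2 := by
      rw [he, lp.norm_single (by norm_num)]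
      norm_num
    have hmem : ∀ i ∈ Finset.range n, e ∈ (Psi K b hb hKb i ω).carrier := by
      intro i hi
      have hi' : i < n := Finset.mem_range.1 hi
      have hcyl : l ∈ cyl i (ω i) := by
        change l[i]? = some _
        rw [hl, List.getElem?_ofFn]
        simp [hi']
      have heW : e ∈ (W i (ω i)).carrier := by
        refine ⟨fun j hj => ?_, henorm.le⟩
        rw [he, lp.single_apply]
        have hjl : j ≠ l := fun h => hj (h ▸ hcyl)
        simp [hjl]
      refine ⟨fun k => if k = i then e else 0, fun k => ?_, ?_⟩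
      · by_cases hk : k = i
        · subst hk
          simp only [if_true, Function.update_self]
          exact heW
        · simp only [hk, if_false, Function.update_of_ne hk]
          exact zero_mem_Uk K k
      · exact hasSum_ite_eq i e
    refine ⟨e, ?_, henorm⟩
    rw [average, Set.mem_smul_set]
    refine ⟨(n : ℝ) • e, ?_, by rw [smul_smul, inv_mul_cancel₀ hn0, one_smul]⟩
    have := Set.finsetSum_mem_finsetSum (Finset.range n)
      (fun i => (Psi K b hb hKb i ω).carrier) (fun _ => e) hmem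
    simpa [Finset.sum_const, Finset.card_range, Nat.cast_smul_eq_nsmul] using this

section Final

variable {X : Type*} [NormedAddCommGroup X] [NormedSpace ℝ X]

lemma norm_le_one_of_mem_average {Ω : Type*} {Ψ : ℕ → Ω → BC X}
    (h : ∀ n ω, (Ψ n ω).carrier ⊆ closedBall 0 1) {n : ℕ} {ω : Ω} {x : X}
    (hx : x ∈ average Ψ n ω) : ‖x‖ ≤ 1 := by
  rw [average, Set.mem_smul_set] at hx
  obtain ⟨y, hy, rfl⟩ := hx
  rw [Set.mem_finsetSum] at hy
  obtain ⟨g, hg, rfl⟩ := hy
  have h1 : ‖∑ i ∈ Finset.range n, g i‖ ≤ n := by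
    calc ‖∑ i ∈ Finset.range n, g i‖ ≤ ∑ _i ∈ Finset.range n, (1 : ℝ) :=
          norm_sum_le_of_le _ fun i hi => by
            have := h i ω (hg hi)
            rwa [mem_closedBall_zero_iff] at this
      _ = n := by simp
  rw [norm_smul, Real.norm_of_nonneg (by positivity)]
  rcases Nat.eq_zero_or_pos n with hn | hn
  · subst hn
    simp
  · have hn' : (0 : ℝ) < n := by exact_mod_cast hn
    rw [inv_mul_le_iff₀ hn']
    linarith

lemma bddAbove_norm_average {Ω : Type*} {Ψ : ℕ → Ω → BC X}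
    (h : ∀ n ω, (Ψ n ω).carrier ⊆ closedBall 0 1) (n : ℕ) (ω : Ω) :
    BddAbove ((fun a : X => ‖a‖) '' average Ψ n ω) := by
  refine ⟨1, ?_⟩
  rintro _ ⟨x, hx, rfl⟩
  exact norm_le_one_of_mem_average h hx

lemma setNorm_average_le {Ω : Type*} {Ψ : ℕ → Ω → BC X}
    (h : ∀ n ω, (Ψ n ω).carrier ⊆ closedBall 0 1) (n : ℕ) (ω : Ω) :
    setNorm (average Ψ n ω) ≤ 1 := by
  refine Real.sSup_le ?_ zero_le_one
  rintro _ ⟨x, hx, rfl⟩
  exact norm_le_one_of_mem_average h hx

end Final

/-- **The answer to Q1 is negative, already in Hilbert space.** There are a B-convex Banach space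
`X` (a Hilbert space) and `ε > 0` such that for every `δ > 0` there are a probability space, a set
`U ∈ BC(X)` inside `δ B_X` and independent random sets `Ψ_n` inside `B_X` with expectation `U` such
that, for every `ω`, the norms of all Minkowski averages, and hence their `limsup`,
exceed `ε`. -/
theorem result :
    ∃ (X : Type) (_ : NormedAddCommGroup X) (_ : InnerProductSpace ℝ X) (_ : CompleteSpace X),
      BConvex X ∧ ∃ ε : ℝ, 0 < ε ∧ ∀ δ : ℝ, 0 < δ →
        ∃ (Ω : Type) (_ : MeasurableSpace Ω) (P : Measure Ω) (_ : IsProbabilityMeasure P)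
          (U : BC X) (Ψ : ℕ → Ω → BC X),
          U.carrier ⊆ closedBall 0 δ ∧ IsAdmissible P U Ψ ∧
          ∀ ω, (∀ n : ℕ, 1 ≤ n → ε < setNorm (average Ψ n ω)) ∧
            ε < limsup (fun n : ℕ => setNorm (average Ψ n ω)) atTop := by
  refine ⟨H, inferInstance, inferInstance, inferInstance, bConvex_H, 1 / 4, by norm_num,
    fun δ hδ => ?_⟩
  obtain ⟨Ω, mΩ, P, hP, U, Ψ, hU, hadm, hlow⟩ := exists_counterexample δ hδ
  have hlow' : ∀ ω, ∀ n : ℕ, 1 ≤ n → 1 / 2 ≤ setNorm (average Ψ n ω) := by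
    intro ω n hn
    obtain ⟨x, hx, hx2⟩ := hlow ω n hn
    exact le_csSup (bddAbove_norm_average hadm.subset_ball n ω) ⟨x, hx, hx2⟩
  refine ⟨Ω, mΩ, P, hP, U, Ψ, hU, hadm, fun ω => ⟨fun n hn => ?_, ?_⟩⟩
  · have := hlow' ω n hn
    linarith
  · have h1 : (1 : ℝ) / 2 ≤ limsup (fun n : ℕ => setNorm (average Ψ n ω)) atTop := by
      refine le_limsup_of_frequently_le ?_ ?_
      · exact ((eventually_ge_atTop 1).mono fun n hn => hlow' ω n hn).frequently
      · exact isBoundedUnder_of ⟨1, fun n => setNorm_average_le hadm.subset_ball n ω⟩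
    linarith

/-- Consequence: the law asked for in Q1 does not hold in all B-convex Banach spaces. -/
theorem not_forall_smallExpectationLaw :
    ¬ ∀ (X : Type) [NormedAddCommGroup X] [NormedSpace ℝ X] [CompleteSpace X],
      BConvex X → SmallExpectationLaw X := by
  intro hall
  obtain ⟨X, i1, i2, i3, hB, ε, hε, hδ⟩ := result
  obtain ⟨δ, hδpos, hlaw⟩ := hall X hB ε hε
  obtain ⟨Ω, mΩ, P, hP, U, Ψ, hU, hadm, hlow⟩ := hδ δ hδpos
  have h := hlaw Ω P U Ψ hU hadm
  obtain ⟨ω, hω⟩ := h.exists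
  exact absurd (hlow ω).2 (not_lt.2 hω)

end Pool.Agent.Results.MP_b91784_pr.SmallExpectation
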